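import Pool.Agent.K4H15.BT.Main

/-!
# Points and periods of `E : y² + y = x³`
-/

set_option autoImplicit false
set_option linter.unusedSectionVars false

namespace Pool.Agent.K4H15.BT

open NumberField IsDedekindDomain Filter Topology

open Pool.Agent.Y696

section

variable {F K : Type} [Field F] [NumberField F] [IsCyclotomicExtension {3} ℚ F] [Field K]
  [NumberField K] [Algebra F K] [IsGalois ℚ K]

theorem fin_points {n : ℕ} (hn : Module.finrank F K = 2 ^ n) {m : ℕ}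
    (hm : ∀ p : ℕ, p.Prime → p ∣ m → ∀ x : ZMod p, x ^ 3 ≠ 2)
    {art : (𝓞 F ⧸ Ideal.span {(m : 𝓞 F)})ˣ →* Gal(K/F)} (hart : IsArtin (m : 𝓞 F) art) :
    Finite (E27 K).toAffine.Point := by
  have hgal : IsGalois F K := IsGalois.tower_top_of_isGalois ℚ F K
  exact (all_art hn hart fun v₀ hv x => Nc.cube hm v₀ hv x).2.1

end

/-- the value divided by the power of the complex period -/
theorem unit_part {l : ℂ → ℂ} {k : ℕ}
    (h : ∀ (Λ : PeriodPair) (Ω : ℂ), Cur Λ Ω →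
      ((starRingEnd ℂ) Ω) ^ 6 = Ω ^ 6 →
        ∀ (Γ : Type) [LinearOrderedCommGroupWithZero Γ] (w : Valuation ℂ Γ), w 2 < 1 →
          w (l 1) = w Ω ^ (2 * k)) {Cp : ℝ}
    (hCp : Cp = 2 * (2 * ∫ x : ℂ, 1 / ‖Pool.Agent.R431.B.Per.cubic (E27 ℤ) x‖)) :
    0 < Cp ∧ ∀ (Γ : Type) [LinearOrderedCommGroupWithZero Γ] (w : Valuation ℂ Γ), w 2 < 1 →
        w (l 1 / (Cp : ℂ) ^ k) = 1 := by
  obtain ⟨Ω₀, hΩ₀, hC₀⟩ := Pool.Agent.Y696.exists_cur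
  obtain ⟨Ω, hC, hΩ⟩ := Pool.Agent.R431.B.exists_om hC₀.g2 hC₀.g3
  obtain ⟨U, hU⟩ := Pool.Agent.Y696.exists_over_two
  obtain ⟨p1, p2, -, -⟩ := Pool.Agent.R431.B.v_periods (Γ := U.ValueGroup) (v := U.valuation) hU hC hΩ
    rfl hCp
  refine ⟨p2, fun Γ _ w hw => ?_⟩
  obtain ⟨p3, -, p4, p5⟩ := Pool.Agent.R431.B.v_periods hw hC hΩ rfl hCp
  have h6 : w Ω ≠ 0 := (Valuation.ne_zero_iff _).2 hC.lat.ne
  set Rp : ℝ := 2 * ∫ x in {x : ℝ | 0 < Pool.Agent.R431.B.Per.cubic (E27 ℤ) x},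
    1 / Real.sqrt (Pool.Agent.R431.B.Per.cubic (E27 ℤ) x) with hRp
  have h7 : (Cp : ℂ) = (Rp : ℂ) * ((Cp / Rp : ℝ) : ℂ) := by
    have : Rp ≠ 0 := p3.ne'
    rw [← Complex.ofReal_mul]
    congr 1
    field_simp
  rw [map_div₀, h _ Ω hC hΩ Γ w hw, h7, map_pow, map_mul, p4, p5, ← pow_two, ← pow_mul]
  exact div_self (pow_ne_zero _ h6)

end Pool.Agent.K4H15.BT
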