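import Pool.Agent.R431.B.Fin

/-!
# The `L`-function of `E ⊗ V`, `E : y² + y = x³`, for complex representations `V`

This is `Pool.Agent.R431.B` (lattice representations) for complex representations.
-/

set_option autoImplicit false
set_option linter.unusedSectionVars false

namespace Pool.Agent.K4H15.BT

open NumberField IsDedekindDomain Filter Topology

open scoped Pointwise

open Pool.Agent.Y696 Pool.Agent.W192.HK Pool.Agent.TH936.CM Pool.Agent.TH936.PU

open Pool.Agent.W192.CM (nu)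

open Pool.Agent.R431.B (sum_mc eigSet span_eigSet FrobSet under_eq card_under frob_iff frob_nonempty
  frob_conj trans_over frob_stab frob_conj_iff not_mem_of_coprime inc inc_inj frob_mod1 frob_mod2
  frob_quot frob_single avg_char pts pts_eq disc27 dvd_disc cube_inj pts_other pts_mod1 FD loc
  mem_bel_nat cop_gen loc_val loc_c loc_three prime_gen frob_art mem_gP cop_three_of card_mod1
  card_mod2 cjP cj_cj cjP_span mem_cjP_nat over_mod1 over_mod2 fibProd fib_mod1 fib_mod2 fib_one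
  hasProd_fib frobEquiv cpow_quad exists_place v_root v_ram exists_om v_six_eq v_periods m_ne m_mod map27)


section

variable {G : Type} [CommGroup G] [Finite G] {κ : Type} [Fintype κ] [DecidableEq κ]

lemma exists_basis (T : G →* Module.End ℂ (κ → ℂ)) :
    ∃ (b : Module.Basis κ ℂ (κ → ℂ)) (χ : κ → MulChar G ℂ),
      ∀ (u : G) i, T u (b i) = χ i u • b i := by
  classical
  let b₀ := Module.Basis.ofSpan (span_eigSet T)
  have : Fintype ((linearIndepOn_empty ℂ id).extend (Set.empty_subset (eigSet T))) :=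
    FiniteDimensional.fintypeBasisIndex b₀
  have hc : Fintype.card ((linearIndepOn_empty ℂ id).extend (Set.empty_subset (eigSet T))) =
      Fintype.card κ := by
    rw [← Module.finrank_eq_card_basis b₀]
    simp
  let b := b₀.reindex (Fintype.equivOfCardEq hc)
  have hb : ∀ i, b i ∈ eigSet T := by
    intro i
    rw [Module.Basis.reindex_apply]
    exact Module.Basis.ofSpan_subset (span_eigSet T) ⟨_, rfl⟩
  choose χ hχ using hb
  exact ⟨b, χ, fun u i => hχ i u⟩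

end


section mat

variable {κ : Type} [Fintype κ] [DecidableEq κ]

/-- the matrix -/
def cM (A : GL κ ℂ) : Matrix κ κ ℂ := (A : Matrix κ κ ℂ)

lemma cM_one : cM (1 : GL κ ℂ) = 1 := rfl

lemma cM_mul (A B : GL κ ℂ) : cM (A * B) = cM A * cM B := rfl

/-- the eigenvector `b` of the matrix -/
def Eig (b : κ → ℂ) (A : Matrix κ κ ℂ) (l : ℂ) : Prop := A.mulVec b = l • b

lemma Eig.add {b : κ → ℂ} {A B : Matrix κ κ ℂ} {l m : ℂ} (h : Eig b A l)
    (h' : Eig b B m) : Eig b (A + B) (l + m) := by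
  unfold Eig at *
  rw [Matrix.add_mulVec, h, h', add_smul]

lemma Eig.sub {b : κ → ℂ} {A B : Matrix κ κ ℂ} {l m : ℂ} (h : Eig b A l)
    (h' : Eig b B m) : Eig b (A - B) (l - m) := by
  unfold Eig at *
  rw [Matrix.sub_mulVec, h, h', sub_smul]

lemma Eig.smul {b : κ → ℂ} {A : Matrix κ κ ℂ} {l : ℂ} (h : Eig b A l) (c : ℂ) :
    Eig b (c • A) (c * l) := by
  unfold Eig at *
  rw [Matrix.smul_mulVec, h, mul_smul]

lemma Eig.mul {b : κ → ℂ} {A B : Matrix κ κ ℂ} {l m : ℂ} (h : Eig b A l)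
    (h' : Eig b B m) : Eig b (A * B) (l * m) := by
  unfold Eig at *
  rw [← Matrix.mulVec_mulVec, h', Matrix.mulVec_smul, h, smul_smul, mul_comm]

lemma Eig.one (b : κ → ℂ) : Eig b 1 1 := by
  unfold Eig
  rw [Matrix.one_mulVec, one_smul]

lemma Eig.pow {b : κ → ℂ} {A : Matrix κ κ ℂ} {l : ℂ} (h : Eig b A l) (n : ℕ) :
    Eig b (A ^ n) (l ^ n) := by
  induction n with
  | zero => simpa using Eig.one b
  | succ n ih =>
    rw [pow_succ, pow_succ]
    exact ih.mul h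

lemma Eig.sum {ι : Type*} {b : κ → ℂ} {A : ι → Matrix κ κ ℂ} {l : ι → ℂ}
    (s : Finset ι) (h : ∀ i ∈ s, Eig b (A i) (l i)) : Eig b (∑ i ∈ s, A i) (∑ i ∈ s, l i) := by
  classical
  induction s using Finset.induction_on with
  | empty =>
    unfold Eig
    simp
  | insert a s ha ih =>
    rw [Finset.sum_insert ha, Finset.sum_insert ha]
    exact (h a (Finset.mem_insert_self a s)).add (ih fun i hi => h i (Finset.mem_insert_of_mem hi))

lemma det_eig (b : Module.Basis κ ℂ (κ → ℂ)) {A : Matrix κ κ ℂ}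
    {l : κ → ℂ} (h : ∀ i, Eig (b i) A (l i)) : A.det = ∏ i, l i := by
  have h1 : LinearMap.toMatrix b b (Matrix.toLin' A) = Matrix.diagonal l := by
    ext i j
    rw [LinearMap.toMatrix_apply, Matrix.toLin'_apply, h j, map_smul]
    simp only [Module.Basis.repr_self, Finsupp.smul_apply, Finsupp.single_apply, smul_eq_mul,
      Matrix.diagonal_apply]
    by_cases hij : i = j
    · subst hij
      simp
    · rw [if_neg (fun h => hij h.symm), if_neg hij, mul_zero]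
  rw [← LinearMap.det_toLin', ← LinearMap.det_toMatrix b, h1, Matrix.det_diagonal]

/-- the simultaneous eigenvectors of the matrices -/
theorem exists_eig {G : Type} [CommGroup G] [Finite G] (ρ : G →* GL κ ℂ) :
    ∃ (b : Module.Basis κ ℂ (κ → ℂ)) (χ : κ → MulChar G ℂ),
      ∀ (u : G) i, Eig (b i) (cM (ρ u)) (χ i u) := by
  let T : G →* Module.End ℂ (κ → ℂ) :=
    { toFun := fun u => Matrix.toLin' (cM (ρ u))
      map_one' := by
        rw [map_one, cM_one, Matrix.toLin'_one]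
        rfl
      map_mul' := fun x y => by
        rw [map_mul, cM_mul, Matrix.toLin'_mul]
        rfl }
  obtain ⟨b, χ, h⟩ := exists_basis T
  refine ⟨b, χ, fun u i => ?_⟩
  have := h u i
  exact this

end mat


section defs

variable {K : Type} [Field K] [NumberField K] {κ : Type} [Fintype κ] [DecidableEq κ]

/-- The action of the Frobenius automorphism at `v` on the vectors of `ℂ^g` fixed by the inertia
group of `v`, extended by zero: the average of the matrices `ρ(σ)` over all the Frobenius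
automorphisms `σ` at `v`. -/
noncomputable def frobM (ρ : (K ≃ₐ[ℚ] K) →* GL κ ℂ) (v : HeightOneSpectrum (𝓞 K)) :
    Matrix κ κ ℂ :=
  (Nat.card (FrobSet v) : ℂ)⁻¹ •
    ∑ᶠ σ : FrobSet v, (ρ σ.1 : Matrix κ κ ℂ)

/-- The Euler factor of the `L`-function of `A = E ⊗ M` at the prime number `p`, where `v` is a
place of `K` above `p`: `det (1 - a_p p^(-s) Φ + p^(1 - 2 s) Φ²)⁻¹` for `Φ = frobM ρ v`, without the
last term if `p` divides the discriminant of `E`; `a_p = p - pts` as `pts` does not count the point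
at infinity. -/
noncomputable def euler (ρ : (K ≃ₐ[ℚ] K) →* GL κ ℂ) (W : WeierstrassCurve ℤ)
    (v : HeightOneSpectrum (𝓞 K)) (s : ℂ) (p : ℕ) : ℂ :=
  (1 - ((((p : ℤ) - pts W (ZMod p) : ℤ) : ℂ) * (p : ℂ) ^ (-s)) • frobM ρ v +
    (if (p : ℤ) ∣ W.Δ then 0 else (p : ℂ) ^ (1 - 2 * s)) • frobM ρ v ^ 2).det⁻¹

end defs

section mats

variable {κ : Type} [Fintype κ] [DecidableEq κ]

lemma det_sandwich {T T' X : Matrix κ κ ℂ} (h : T * T' = 1) :
    (T * X * T').det = X.det := by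
  have h1 : T.det * T'.det = 1 := by rw [← Matrix.det_mul, h, Matrix.det_one]
  rw [Matrix.det_mul, Matrix.det_mul]
  linear_combination X.det * h1

lemma quad_sandwich {T T' A : Matrix κ κ ℂ} (h : T * T' = 1) (h' : T' * T = 1)
    (a b : ℂ) :
    (1 - a • (T * A * T') + b • (T * A * T') ^ 2).det = (1 - a • A + b • A ^ 2).det := by
  have e : 1 - a • (T * A * T') + b • (T * A * T') ^ 2 = T * (1 - a • A + b • A ^ 2) * T' := by
    have e1 : (T * A * T') ^ 2 = T * A ^ 2 * T' := by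
      calc (T * A * T') ^ 2 = T * A * (T' * T) * A * T' := by
            rw [pow_two]; simp only [Matrix.mul_assoc]
        _ = T * A ^ 2 * T' := by rw [h', Matrix.mul_one, pow_two]; simp only [Matrix.mul_assoc]
    rw [e1, Matrix.mul_add, Matrix.add_mul, Matrix.mul_sub, Matrix.sub_mul, Matrix.mul_one, h,
      Matrix.mul_smul, Matrix.smul_mul, Matrix.mul_smul, Matrix.smul_mul]
  rw [e, det_sandwich h]

lemma lin_sandwich {T T' A : Matrix κ κ ℂ} (h : T * T' = 1) (h' : T' * T = 1)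
    (a : ℂ) : (1 - a • (T * A * T')).det = (1 - a • A).det := by
  have := quad_sandwich (A := A) h h' a 0
  simpa using this

lemma quad_fac (A : Matrix κ κ ℂ) (x y : ℂ) :
    (1 - (x + y) • A + (x * y) • A ^ 2).det = (1 - x • A).det * (1 - y • A).det := by
  rw [← Matrix.det_mul]
  congr 1
  rw [Matrix.sub_mul, Matrix.one_mul, Matrix.mul_sub, Matrix.mul_one, Matrix.smul_mul,
    Matrix.mul_smul, smul_smul, add_smul, pow_two]
  abel

end mats

section frobs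

variable {K : Type} [Field K] [NumberField K] {κ : Type} [Fintype κ] [DecidableEq κ] (ρ : (K ≃ₐ[ℚ] K) →* GL κ ℂ)

lemma frobM_single {v : HeightOneSpectrum (𝓞 K)} {σ : K ≃ₐ[ℚ] K} (h : FrobSet v = {σ}) :
    frobM ρ v = cM (ρ σ) := by
  unfold frobM
  have h1 : (∑ᶠ τ : FrobSet v, (ρ τ.1 : Matrix κ κ ℂ)) =
      ∑ᶠ τ ∈ FrobSet v, (ρ τ : Matrix κ κ ℂ) :=
    finsum_set_coe_eq_finsum_mem (f := fun τ : K ≃ₐ[ℚ] K =>
      (ρ τ : Matrix κ κ ℂ)) (FrobSet v)
  rw [h1, h, finsum_mem_singleton]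
  have h2 : Nat.card ({σ} : Set (K ≃ₐ[ℚ] K)) = 1 := by simp
  rw [h2]
  simp [cM]

lemma frobM_conj {v w : HeightOneSpectrum (𝓞 K)} {τ : K ≃ₐ[ℚ] K}
    (hw : w.asIdeal = τ • v.asIdeal) :
    frobM ρ w = cM (ρ τ) * frobM ρ v * cM (ρ τ⁻¹) := by
  classical
  have hfin : Finite (FrobSet v) := inferInstance
  have hfin' : Finite (FrobSet w) := inferInstance
  let _ : Fintype (FrobSet v) := Fintype.ofFinite _
  let _ : Fintype (FrobSet w) := Fintype.ofFinite _
  unfold frobM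
  rw [finsum_eq_sum_of_fintype, finsum_eq_sum_of_fintype, Nat.card_congr (frobEquiv hw),
    ← (frobEquiv hw).sum_comp, Matrix.mul_smul, Matrix.smul_mul, Matrix.mul_sum, Matrix.sum_mul]
  congr 1
  refine Finset.sum_congr rfl fun σ _ => ?_
  show cM (ρ (τ * σ.1 * τ⁻¹)) = cM (ρ τ) * cM (ρ σ.1) * cM (ρ τ⁻¹)
  rw [map_mul, map_mul, cM_mul, cM_mul]

lemma cM_inv (τ : K ≃ₐ[ℚ] K) : cM (ρ τ) * cM (ρ τ⁻¹) = 1 := by
  rw [← cM_mul, ← map_mul, mul_inv_cancel, map_one, cM_one]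

lemma cM_inv' (τ : K ≃ₐ[ℚ] K) : cM (ρ τ⁻¹) * cM (ρ τ) = 1 := by
  rw [← cM_mul, ← map_mul, inv_mul_cancel, map_one, cM_one]

/-- the Euler factor does not depend on the place -/
lemma euler_place [IsGalois ℚ K] {v w : HeightOneSpectrum (𝓞 K)} {p : ℕ} (hp : p.Prime)
    (hv : (p : 𝓞 K) ∈ v.asIdeal) (hw : (p : 𝓞 K) ∈ w.asIdeal) (W : WeierstrassCurve ℤ) (s : ℂ) :
    euler ρ W w s p = euler ρ W v s p := by
  obtain ⟨τ, hτ⟩ := trans_over hp hv hw
  unfold euler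
  rw [frobM_conj ρ hτ, quad_sandwich (cM_inv ρ τ) (cM_inv' ρ τ)]

end frobs


section

variable {K : Type} [Field K] [NumberField K] [IsGalois ℚ K] {ι : eis →+* 𝓞 K} {G : Type}
  [CommGroup G] [Finite G] [MulSemiringAction G (𝓞 K)] {c : eis}
  {art : (eis ⧸ (sp c : Ideal eis))ˣ →* G} {i : G →* (K ≃ₐ[ℚ] K)} {κ : Type} [Fintype κ] [DecidableEq κ]

section rep

variable (ρ : (K ≃ₐ[ℚ] K) →* GL κ ℂ) {b : Module.Basis κ ℂ (κ → ℂ)}
  {χ : κ → MulChar G ℂ}

lemma det_chars (hb : ∀ (u : G) j, Eig (b j) (cM (ρ (i u))) (χ j u)) (u : G) (y : ℂ) :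
    (1 - y • cM (ρ (i u))).det = ∏ j, (1 - y * χ j u) :=
  det_eig b fun j => (Eig.one (b j)).sub ((hb u j).smul y)

/-- the factors at the primes `p = 1` modulo `3` that do not divide `c` -/
theorem factor_mod1 (D : Dat ι G c art) (hFD : FD i) {m : ℕ} (hc : c = (m : eis))
    (hb : ∀ (u : G) j, Eig (b j) (cM (ρ (i u))) (χ j u)) {p : ℕ} (hp : p.Prime)
    {v : HeightOneSpectrum (𝓞 K)} (hv : (p : 𝓞 K) ∈ v.asIdeal) (h1 : p % 3 = 1)
    (hcv : ι c ∉ v.asIdeal) (s : ℂ) :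
    fibProd (fun P => ∏ j, loc (eta art (χ j)) P s) p = euler ρ (E27 ℤ) v s p := by
  have hp3 : p ≠ 3 := by rintro rfl; norm_num at h1
  set P := bel ι v with hPdef
  have hP : (p : eis) ∈ P.asIdeal := (mem_bel_nat v p).2 hv
  obtain ⟨π, hπ, hπ1, hN, hψ, hψ', hn, hn', hne, hall⟩ := over_mod1 hp hP h1
  have hcP : c ∉ P.asIdeal := by rw [hPdef, mem_bel]; exact hcv
  have hcP' : c ∉ (cjP P).asIdeal := by
    rw [hc, mem_cjP_nat, ← hc]
    exact hcP
  obtain ⟨u, hu⟩ := (unit_iff (c := c) π).2 (cop_gen hπ hcP)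
  have hπ' : (cjP P).asIdeal = sp (cj π) := cjP_span hπ
  obtain ⟨u', hu'⟩ := (unit_iff (c := c) (cj π)).2 (cop_gen hπ' hcP')
  have hF := frob_art D hFD hp hv h1 hcv hπ hu
  -- the conjugate place
  obtain ⟨w, hw⟩ := exists_over D (cjP P)
  have hwp : (p : 𝓞 K) ∈ w.asIdeal := by
    rw [← mem_bel_nat (ι := ι), hw, mem_cjP_nat]
    exact hP
  have hcw : ι c ∉ w.asIdeal := by
    rw [← mem_bel, hw]
    exact hcP'
  have hF' := frob_art D hFD hp hwp h1 hcw (by rw [hw]; exact hπ') hu'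
  obtain ⟨τ, hτ⟩ := trans_over hp hv hwp
  have hconj : τ * i (art u) * τ⁻¹ = i (art u') := by
    have h2 : i (art u) ∈ FrobSet v := by rw [hF]; rfl
    have h3 := frob_conj hτ h2
    rw [hF'] at h3
    exact h3
  set X : ℂ := (p : ℂ) ^ (-s) with hX
  set A := cM (ρ (i (art u))) with hA
  have hA' : cM (ρ (i (art u'))) = cM (ρ τ) * A * cM (ρ τ⁻¹) := by
    rw [← hconj, map_mul, map_mul, cM_mul, cM_mul]
  -- the left side
  have hL1 : ∏ j, loc (eta art (χ j)) P s = ((1 - ((π : ℂ) * X) • A).det)⁻¹ := by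
    rw [hA, det_chars ρ hb, ← Finset.prod_inv_distrib]
    refine Finset.prod_congr rfl fun j _ => ?_
    rw [loc_val D (χ j) hπ hu, hψ, hn]
    congr 1
    push_cast
    rw [hX]
    ring
  have hL2 : ∏ j, loc (eta art (χ j)) (cjP P) s =
      ((1 - ((starRingEnd ℂ) (π : ℂ) * X) • A).det)⁻¹ := by
    have h2 : (1 - ((starRingEnd ℂ) (π : ℂ) * X) • A).det =
        (1 - ((starRingEnd ℂ) (π : ℂ) * X) • cM (ρ (i (art u')))).det := by
      rw [hA', lin_sandwich (cM_inv ρ τ) (cM_inv' ρ τ)]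
    rw [h2, det_chars ρ hb, ← Finset.prod_inv_distrib]
    refine Finset.prod_congr rfl fun j _ => ?_
    rw [loc_val D (χ j) hπ' hu', hψ', hn']
    congr 1
    push_cast
    rw [hX]
    ring
  rw [fib_mod1 hne hP hall, hL1, hL2, ← mul_inv, ← quad_fac]
  unfold euler
  rw [frobM_single ρ hF, ← hA, if_neg (dvd_disc hp hp3), cpow_quad hp, ← hX]
  have hpc : (p : ℂ) = (π : ℂ) * (starRingEnd ℂ) (π : ℂ) := by
    have h2 := congrArg (fun t : eis => (t : ℂ)) hN
    push_cast at h2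
    rw [cj_coe] at h2
    exact h2.symm
  have ha : ((((p : ℤ) - pts (E27 ℤ) (ZMod p) : ℤ) : ℂ)) = (π : ℂ) + (starRingEnd ℂ) (π : ℂ) := by
    push_cast
    rw [pts_mod1 hp h1 hP hπ hπ1 hN]
    ring
  rw [ha]
  have e1 : (π : ℂ) * X + (starRingEnd ℂ) (π : ℂ) * X = ((π : ℂ) + (starRingEnd ℂ) (π : ℂ)) * X := by
    ring
  have e2 : (π : ℂ) * X * ((starRingEnd ℂ) (π : ℂ) * X) = (p : ℂ) * X ^ 2 := by
    rw [hpc]
    ring
  rw [e1, e2]

/-- the factors at the primes `p = 2` modulo `3` -/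
theorem factor_mod2 (D : Dat ι G c art) (hFD : FD i)
    (hb : ∀ (u : G) j, Eig (b j) (cM (ρ (i u))) (χ j u)) {p : ℕ} (hp : p.Prime)
    {v : HeightOneSpectrum (𝓞 K)} (hv : (p : 𝓞 K) ∈ v.asIdeal) (h1 : p % 3 = 2)
    (hcv : ι c ∉ v.asIdeal) (s : ℂ) :
    fibProd (fun P => ∏ j, loc (eta art (χ j)) P s) p = euler ρ (E27 ℤ) v s p := by
  have hp3 : p ≠ 3 := by rintro rfl; norm_num at h1
  set P := bel ι v with hPdef
  have hP : (p : eis) ∈ P.asIdeal := (mem_bel_nat v p).2 hv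
  obtain ⟨hψ, hn, hall⟩ := over_mod2 hp hP h1
  obtain ⟨hcard, hsp⟩ := card_mod2 hp hP h1
  have hcP : c ∉ P.asIdeal := by rw [hPdef, mem_bel]; exact hcv
  obtain ⟨u, hu⟩ := (unit_iff (c := c) (p : eis)).2 (cop_gen hsp hcP)
  obtain ⟨σ, hσ⟩ := frob_nonempty v
  have hF : FrobSet v = {σ} := by
    apply Set.eq_singleton_iff_unique_mem.2
    refine ⟨hσ, fun σ' hσ' => ?_⟩
    obtain ⟨τ, h3, h4⟩ := hFD.quot p hp v hv hp3 σ' hσ' _ hσ
    rw [D.unr v hcv τ h4, map_one] at h3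
    exact mul_inv_eq_one.1 h3.symm
  obtain ⟨τ, hτ, hτ2⟩ := hFD.mod2 p hp v hv h1 σ hσ
  have hart : τ = art u := by
    have h2 : τ * (art u)⁻¹ = 1 := by
      apply D.unr v hcv
      intro x
      have h3 := D.frob (p : eis) (prime_gen hsp) u hu v (by
        rw [map_natCast]
        exact hv) ((art u)⁻¹ • x)
      rw [← hsp, hcard] at h3
      have h4 := v.asIdeal.sub_mem (hτ2 ((art u)⁻¹ • x)) h3
      rw [sub_sub_sub_cancel_right, smul_inv_smul, ← mul_smul] at h4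
      exact h4
    exact mul_inv_eq_one.1 h2
  rw [hart] at hτ
  set X : ℂ := (p : ℂ) ^ (-s) with hX
  rw [fib_mod2 hP hall]
  unfold euler
  rw [frobM_single ρ hF, if_neg (dvd_disc hp hp3), cpow_quad hp, ← hX]
  have ha : ((((p : ℤ) - pts (E27 ℤ) (ZMod p) : ℤ) : ℂ)) = 0 := by
    rw [pts_other hp (by omega)]
    simp
  have hsq : cM (ρ σ) ^ 2 = cM (ρ (i (art u))) := by
    rw [hτ, map_mul, cM_mul, pow_two]
  rw [ha, zero_mul, zero_smul, sub_zero, hsq]
  have hdet : (1 + ((p : ℂ) * X ^ 2) • cM (ρ (i (art u)))).det =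
      ∏ j, (1 - (-((p : ℂ) * X ^ 2)) * χ j (art u)) := by
    rw [← det_chars ρ hb]
    congr 1
    rw [neg_smul, sub_neg_eq_add]
  rw [hdet, ← Finset.prod_inv_distrib]
  refine Finset.prod_congr rfl fun j _ => ?_
  rw [loc_val D (χ j) hsp hu, hψ, hn]
  congr 1
  have e1 : (((p : ℝ) ^ 2 : ℝ) : ℂ) ^ (-s) = X ^ 2 := by
    push_cast
    rw [pow_two, Complex.natCast_mul_natCast_cpow, hX, pow_two]
  rw [e1]
  ring

/-- the factor at three -/
theorem factor_three (v : HeightOneSpectrum (𝓞 K)) (s : ℂ) :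
    fibProd (fun P => ∏ j, loc (eta art (χ j)) P s) 3 = euler ρ (E27 ℤ) v s 3 := by
  rw [fib_one]
  · unfold euler
    have ha : (((((3 : ℕ) : ℤ) - pts (E27 ℤ) (ZMod 3) : ℤ) : ℂ)) = 0 := by
      rw [pts_other Nat.prime_three (by norm_num)]
      simp
    have hd : ((3 : ℕ) : ℤ) ∣ (E27 ℤ).Δ := by
      rw [disc27]
      norm_num
    rw [ha, if_pos hd]
    simp
  · intro P hP
    refine Finset.prod_eq_one fun j _ => loc_three (χ j) ?_ s
    exact_mod_cast hP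

/-- the factors at the primes that divide `c` -/
theorem fib_c {p m : ℕ} (hc : c = (m : eis)) (hpm : p ∣ m) (s : ℂ) :
    fibProd (fun P => ∏ j, loc (eta art (χ j)) P s) p = 1 := by
  refine fib_one fun P hP => Finset.prod_eq_one fun j _ => loc_c (χ j) ?_ s
  rw [hc]
  obtain ⟨k, rfl⟩ := hpm
  rw [Nat.cast_mul]
  exact P.asIdeal.mul_mem_right _ hP

end rep

end


section

variable {K : Type} [Field K] [NumberField K] [IsGalois ℚ K] {ι : eis →+* 𝓞 K} {G : Type}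
  [CommGroup G] [Finite G] [MulSemiringAction G (𝓞 K)] {c : eis}
  {art : (eis ⧸ (sp c : Ideal eis))ˣ →* G} {i : G →* (K ≃ₐ[ℚ] K)} {κ : Type} [Fintype κ] [DecidableEq κ]
  (ρ : (K ≃ₐ[ℚ] K) →* GL κ ℂ) {b : Module.Basis κ ℂ (κ → ℂ)}
  {χ : κ → MulChar G ℂ}

/-- the eigenvalues of the average of the Frobenius automorphisms -/
theorem frob_avg (hFD : FD i) (hb : ∀ (u : G) j, Eig (b j) (cM (ρ (i u))) (χ j u)) {p : ℕ}
    (hp : p.Prime) {v : HeightOneSpectrum (𝓞 K)} (hv : (p : 𝓞 K) ∈ v.asIdeal) (h1 : p % 3 = 1) :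
    ∃ l : κ → ℂ, (∀ j, Eig (b j) (frobM ρ v) (l j)) ∧
      ∀ j, l j = 0 ∨ ∃ τ : G, l j = χ j τ := by
  classical
  have hp3 : p ≠ 3 := by rintro rfl; norm_num at h1
  let T : Set G := {τ | i τ ∈ FrobSet v}
  let I : Set G := {j | ∀ x : 𝓞 K, j • x - x ∈ v.asIdeal}
  obtain ⟨σ₀, hσ₀⟩ := frob_nonempty v
  obtain ⟨τ₀, hτ₀⟩ := hFD.mod1 p hp v hv h1 σ₀ hσ₀
  have hT0 : τ₀ ∈ T := by
    show i τ₀ ∈ FrobSet v
    rw [hτ₀]
    exact hσ₀
  have hI1 : ∀ τ ∈ T, ∃ j ∈ I, j * τ₀ = τ := by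
    intro τ hτ
    obtain ⟨j, hj, hj2⟩ := hFD.quot p hp v hv hp3 _ hτ _ hT0
    refine ⟨j, hj2, ?_⟩
    apply hFD.inj
    rw [map_mul, hj]
    group
  have hI2 : ∀ j ∈ I, ∀ τ ∈ T, j * τ ∈ T := by
    intro j hj τ hτ
    show i (j * τ) ∈ FrobSet v
    rw [frob_iff hp hv]
    intro x
    have h2 := (frob_iff hp hv (i τ)).1 hτ x
    rw [hFD.act] at h2 ⊢
    have h3 := v.asIdeal.add_mem (hj (τ • x)) h2
    rw [sub_add_sub_cancel, ← mul_smul] at h3
    exact h3
  let e : T ≃ FrobSet v :=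
    Equiv.ofBijective (fun τ => ⟨i τ.1, τ.2⟩) ⟨fun x y hxy => by
      apply Subtype.ext
      apply hFD.inj
      exact congrArg Subtype.val hxy, fun σ => by
      obtain ⟨τ, hτ⟩ := hFD.mod1 p hp v hv h1 σ.1 σ.2
      exact ⟨⟨τ, by show i τ ∈ FrobSet v; rw [hτ]; exact σ.2⟩, Subtype.ext hτ⟩⟩
  let _ : Fintype T := Fintype.ofFinite _
  let _ : Fintype (FrobSet v) := Fintype.ofFinite _
  refine ⟨fun j => (Nat.card T : ℂ)⁻¹ * ∑ᶠ τ : T, (χ j).toMonoidHom τ.1, fun j => ?_, fun j => ?_⟩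
  · unfold frobM
    rw [← Nat.card_congr e]
    refine Eig.smul ?_ _
    rw [finsum_eq_sum_of_fintype, finsum_eq_sum_of_fintype, ← e.sum_comp]
    refine Eig.sum _ fun τ _ => ?_
    exact hb τ.1 j
  · rcases avg_char (χ j).toMonoidHom hT0 hI1 hI2 with h | h
    · exact Or.inl h
    · exact Or.inr ⟨τ₀, h⟩

/-- the factor with given eigenvalues -/
noncomputable def EF (l : κ → ℂ) (p : ℕ) (s : ℂ) : ℂ :=
  ∏ j, (1 - ((((p : ℤ) - pts (E27 ℤ) (ZMod p) : ℤ) : ℂ) * (p : ℂ) ^ (-s)) * l j +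
    ((p : ℂ) ^ (1 - 2 * s)) * l j ^ 2)

lemma euler_EF {l : κ → ℂ} {p : ℕ} (hp : p.Prime) (h3 : p ≠ 3)
    {v : HeightOneSpectrum (𝓞 K)} (hl : ∀ j, Eig (b j) (frobM ρ v) (l j)) (s : ℂ) :
    euler ρ (E27 ℤ) v s p = (EF l p s)⁻¹ := by
  unfold euler EF
  rw [if_neg (dvd_disc hp h3)]
  congr 1
  exact det_eig b fun j => ((Eig.one (b j)).sub ((hl j).smul _)).add (((hl j).pow 2).smul _)

lemma EF_diff (l : κ → ℂ) {p : ℕ} (hp : p.Prime) : Differentiable ℂ (EF l p) := by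
  have h0 : (p : ℂ) ≠ 0 := by exact_mod_cast hp.ne_zero
  have h1 : Differentiable ℂ (fun s : ℂ => (p : ℂ) ^ (-s)) := by
    intro z
    exact (differentiableAt_id.neg).const_cpow (Or.inl h0)
  have h2 : Differentiable ℂ (fun s : ℂ => (p : ℂ) ^ (1 - 2 * s)) := by
    intro z
    exact ((differentiableAt_const _).sub ((differentiableAt_const _).mul differentiableAt_id)).const_cpow
      (Or.inl h0)
  unfold EF
  refine Differentiable.fun_finsetProd fun j _ => ?_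
  exact ((differentiable_const _).sub (((differentiable_const _).mul h1).mul
    (differentiable_const _))).add (h2.mul (differentiable_const _))

/-- the value at one of a ramified factor -/
lemma v_EF (D : Dat ι G c art) {m : ℕ} (hc : c = (m : eis)) {p : ℕ} (hp : p.Prime)
    (hpm : p ∣ m) (h1 : p % 3 = 1) {l : κ → ℂ} (hl : ∀ j, l j = 0 ∨ ∃ τ : G, l j = χ j τ)
    {Γ : Type} [LinearOrderedCommGroupWithZero Γ] {w : Valuation ℂ Γ} (hw : w 2 < 1) :
    w (EF l p 1) = 1 := by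
  obtain ⟨v, hv⟩ := exists_place (K := K) hp
  have hP : (p : eis) ∈ (bel ι v).asIdeal := (mem_bel_nat v p).2 hv
  obtain ⟨π, hπ, hπ1, hN, hψ, -⟩ := over_mod1 hp hP h1
  have hcP : c ∈ (bel ι v).asIdeal := by
    rw [hc]
    obtain ⟨k, rfl⟩ := hpm
    rw [Nat.cast_mul]
    exact (bel ι v).asIdeal.mul_mem_right _ hP
  obtain ⟨π', hψ2, hcop, hval⟩ := v_psi (Γ := Γ) D hcP
  have hππ : π' = π := coe_inj' (hψ2.symm.trans hψ)
  rw [hππ] at hcop hval
  have k1 := hval w hw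
  have k2 := hval (vc w) (vc_two hw)
  rw [vc_apply, map_sub, map_one] at k2
  have k3 : w (π : ℂ) = 1 := v_cop hw hcop
  have k4 := v_cop (vc_two hw) hcop
  rw [vc_apply] at k4
  have hpc : (p : ℂ) = (π : ℂ) * (starRingEnd ℂ) (π : ℂ) := by
    have h2 := congrArg (fun t : eis => (t : ℂ)) hN
    push_cast at h2
    rw [cj_coe] at h2
    exact h2.symm
  have ha : ((((p : ℤ) - pts (E27 ℤ) (ZMod p) : ℤ) : ℂ)) = (π : ℂ) + (starRingEnd ℂ) (π : ℂ) := by
    push_cast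
    rw [pts_mod1 hp h1 hP hπ hπ1 hN]
    ring
  unfold EF
  rw [map_prod]
  refine Finset.prod_eq_one fun j _ => ?_
  have hlj : l j = 0 ∨ w (l j - 1) < 1 := by
    rcases hl j with h | ⟨τ, h⟩
    · exact Or.inl h
    · right
      obtain ⟨n, hn⟩ := D.pgrp
      refine v_root hw n _ ?_
      rw [h, ← map_pow, ← hn, pow_card_eq_one', map_one]
  have h2 := v_ram k1 k2 k3 k4 hlj hpc
  rw [cpow_quad hp, Complex.cpow_neg_one, ha]
  exact h2

/-- **the `L`-function** -/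
theorem an_main (D : Dat ι G c art) (hFD : FD i) {m : ℕ} (hc : c = (m : eis)) (hm0 : m ≠ 0)
    (hm3 : ∀ p : ℕ, p.Prime → p ∣ m → p % 3 = 1) :
    ∃ L : ℂ → ℂ, MeromorphicOn L Set.univ ∧
      (∀ V : Nat.Primes → HeightOneSpectrum (𝓞 K),
        (∀ p : Nat.Primes, ((p : ℕ) : 𝓞 K) ∈ (V p).asIdeal) → ∀ s : ℂ, 3 / 2 < s.re →
        HasProd (fun p : Nat.Primes => euler ρ (E27 ℤ) (V p) s p) (L s)) ∧
      AnalyticAt ℂ L 1 ∧ L 1 ≠ 0 ∧
      ∀ (Λ : PeriodPair) (Ω : ℂ), Cur Λ Ω → ((starRingEnd ℂ) Ω) ^ 6 = Ω ^ 6 →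
        ∀ (Γ : Type) [LinearOrderedCommGroupWithZero Γ] (w : Valuation ℂ Γ), w 2 < 1 →
          w (L 1) = w Ω ^ Fintype.card κ := by
  classical
  obtain ⟨b, χ, hb0⟩ := exists_eig (ρ.comp i)
  have hb : ∀ (u : G) j, Eig (b j) (cM (ρ (i u))) (χ j u) := hb0
  have hH := fun j : κ => hecke D.c_ne D.cop3 (η := eta art (χ j)) (et_eta_unit D (χ j))
  choose F hFd hFs hFl using hH
  -- the primes that divide `m`
  have hSfin : {p : Nat.Primes | (p : ℕ) ∣ m}.Finite := by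
    have h1 : {q : ℕ | q ∣ m}.Finite := (Nat.divisors m).finite_toSet.subset fun q hq =>
      Finset.mem_coe.2 (Nat.mem_divisors.2 ⟨hq, hm0⟩)
    exact Set.Finite.preimage (f := fun p : Nat.Primes => (p : ℕ))
      (Set.injOn_of_injective (fun a b h => Subtype.ext h)) h1
  let S : Finset Nat.Primes := hSfin.toFinset
  have hS : ∀ p : Nat.Primes, p ∈ S ↔ (p : ℕ) ∣ m := fun p => by
    rw [Set.Finite.mem_toFinset]
    exact Iff.rfl
  have hpl := fun p : Nat.Primes => exists_place (K := K) p.2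
  choose V₀ hV₀ using hpl
  have hl0 : ∀ p : Nat.Primes, ∃ l : κ → ℂ, (p : ℕ) ∣ m →
      (∀ j, Eig (b j) (frobM ρ (V₀ p)) (l j)) ∧ ∀ j, l j = 0 ∨ ∃ τ : G, l j = χ j τ := by
    intro p
    by_cases h : (p : ℕ) ∣ m
    · obtain ⟨l, h1, h2⟩ := frob_avg ρ hFD hb p.2 (hV₀ p) (hm3 p p.2 h)
      exact ⟨l, fun _ => ⟨h1, h2⟩⟩
    · exact ⟨fun _ => 0, fun h' => absurd h' h⟩
  choose l hl using hl0
  have hne3 : ∀ p : Nat.Primes, (p : ℕ) ∣ m → (p : ℕ) ≠ 3 := by
    intro p hpm h3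
    have := hm3 p p.2 hpm
    rw [h3] at this
    norm_num at this
  set L : ℂ → ℂ := fun s => (∏ p ∈ S, (EF (l p) p s)⁻¹) * ∏ j, F j s with hLdef
  have hent : Differentiable ℂ (fun s => ∏ j, F j s) :=
    Differentiable.fun_finsetProd fun j _ => hFd j
  have hval : ∀ (Λ : PeriodPair) (Ω : ℂ), Cur Λ Ω → ((starRingEnd ℂ) Ω) ^ 6 = Ω ^ 6 →
        ∀ (Γ : Type) [LinearOrderedCommGroupWithZero Γ] (w : Valuation ℂ Γ), w 2 < 1 →
          w (L 1) = w Ω ^ Fintype.card κ := by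
    intro Λ Ω hC hΩ Γ _ w hw
    rw [hLdef]
    show w ((∏ p ∈ S, (EF (l p) p 1)⁻¹) * ∏ j, F j 1) = _
    rw [map_mul, map_prod, map_prod]
    have h1 : ∀ p ∈ S, w ((EF (l p) p 1)⁻¹) = 1 := by
      intro p hp
      have hpm := (hS p).1 hp
      rw [map_inv₀, v_EF (K := K) (ι := ι) D hc p.2 hpm (hm3 p p.2 hpm) (hl p hpm).2 hw, inv_one]
    have h2 : ∀ j, w (F j 1) = w Ω := by
      intro j
      have h3 := v_F D (χ j) hC (vc_two hw) (hFl j Λ Ω hC.lat)
      rw [vc_apply, map_div₀, Complex.conj_conj, map_div₀] at h3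
      have h4 : w ((starRingEnd ℂ) Ω) = w Ω := v_six_eq hΩ
      rw [h4] at h3
      have h5 : w Ω ≠ 0 := (Valuation.ne_zero_iff _).2 hC.lat.ne
      exact (div_eq_one_iff_eq h5).1 h3
    rw [Finset.prod_eq_one h1, one_mul, Finset.prod_congr rfl fun j _ => h2 j, Finset.prod_const,
      Finset.card_univ]
  obtain ⟨U, hU⟩ := exists_over_two
  have hUG : ∀ p ∈ S, EF (l p) p 1 ≠ 0 := by
    intro p hp h0
    have hpm := (hS p).1 hp
    have := v_EF (K := K) (ι := ι) D hc p.2 hpm (hm3 p p.2 hpm) (hl p hpm).2 hU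
    rw [h0, map_zero] at this
    exact zero_ne_one this
  refine ⟨L, ?_, ?_, ?_, ?_, hval⟩
  · have h1 : MeromorphicOn (fun s => ∏ p ∈ S, (EF (l p) p s)⁻¹) Set.univ := by
      intro z _
      refine MeromorphicAt.fun_prod fun p _ => ?_
      exact ((EF_diff (l p) p.2).analyticAt z).meromorphicAt.inv
    intro z hz
    exact (h1 z hz).mul ((hent.analyticAt z).meromorphicAt)
  · intro V hV s hs
    have h1 : HasProd (fun P : HeightOneSpectrum eis => ∏ j, loc (eta art (χ j)) P s)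
        (∏ j, F j s) := by
      apply hasProd_prod
      intro j _
      exact hp_eta (et_eta_unit D (χ j)) (hFs j s hs)
    have h2 := hasProd_fib h1
    have h4 : HasProd (fun p : Nat.Primes => if p ∈ S then (EF (l p) p s)⁻¹ else 1)
        (∏ p ∈ S, (EF (l p) p s)⁻¹) := by
      have h6 := hasProd_prod_of_ne_finset_one (L := .unconditional _) (s := S)
        (f := fun p : Nat.Primes => if p ∈ S then (EF (l p) p s)⁻¹ else 1)
        (fun p hp => if_neg hp)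
      rw [Finset.prod_congr rfl (fun p hp => if_pos hp)] at h6
      exact h6
    refine (h4.mul h2).congr_fun fun p => ?_
    by_cases hp : p ∈ S
    · have hpm := (hS p).1 hp
      rw [if_pos hp, fib_c hc hpm, mul_one, ← euler_EF ρ p.2 (hne3 p hpm) (hl p hpm).1]
      exact euler_place ρ p.2 (hV₀ p) (hV p) _ s
    · rw [if_neg hp, one_mul]
      have hpm : ¬ (p : ℕ) ∣ m := fun h => hp ((hS p).2 h)
      have hcv : ι c ∉ (V p).asIdeal := by
        rw [hc, map_natCast]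
        exact not_mem_of_coprime ((Nat.Prime.coprime_iff_not_dvd p.2).2 hpm) (hV p)
      have h5 : (p : ℕ) % 3 < 3 := Nat.mod_lt _ (by norm_num)
      rcases (show (p : ℕ) % 3 = 0 ∨ (p : ℕ) % 3 = 1 ∨ (p : ℕ) % 3 = 2 by omega) with h | h | h
      · have h3 : (p : ℕ) = 3 := ((Nat.prime_dvd_prime_iff_eq Nat.prime_three p.2).1
          (Nat.dvd_of_mod_eq_zero h)).symm
        rw [h3]
        exact (factor_three ρ (V p) s).symm
      · exact (factor_mod1 ρ D hFD hc hb p.2 (hV p) h hcv s).symm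
      · exact (factor_mod2 ρ D hFD hb p.2 (hV p) h hcv s).symm
  · refine AnalyticAt.mul ?_ (hent.analyticAt 1)
    refine Finset.analyticAt_fun_prod _ fun p hp => ?_
    exact ((EF_diff (l p) p.2).analyticAt 1).inv (hUG p hp)
  · obtain ⟨Ω, hΩ, hC⟩ := exists_cur
    obtain ⟨Ω', hC', hΩ'⟩ := exists_om hC.g2 hC.g3
    intro h0
    have h1 := hval _ Ω' hC' hΩ' _ U.valuation hU
    rw [h0, map_zero] at h1
    have h5 : U.valuation Ω' ≠ 0 := (Valuation.ne_zero_iff _).2 hC'.lat.ne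
    exact pow_ne_zero _ h5 h1.symm

end


section

variable {F K : Type} [Field F] [NumberField F] [IsCyclotomicExtension {3} ℚ F] [Field K]
  [NumberField K] [Algebra F K] [IsGalois ℚ K]

/-- **the analytic part** -/
theorem analytic_part {n : ℕ} (hn : Module.finrank F K = 2 ^ n) {m : ℕ}
    (hm : ∀ p : ℕ, p.Prime → p ∣ m → ∀ x : ZMod p, x ^ 3 ≠ 2)
    {art : (𝓞 F ⧸ Ideal.span {(m : 𝓞 F)})ˣ →* Gal(K/F)} (hart : IsArtin (m : 𝓞 F) art) {κ : Type} [Fintype κ] [DecidableEq κ]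
    (ρ : (K ≃ₐ[ℚ] K) →* GL κ ℂ) :
    ∃ L : ℂ → ℂ, MeromorphicOn L Set.univ ∧
      (∀ V : Nat.Primes → HeightOneSpectrum (𝓞 K),
        (∀ p : Nat.Primes, ((p : ℕ) : 𝓞 K) ∈ (V p).asIdeal) → ∀ s : ℂ, 3 / 2 < s.re →
        HasProd (fun p : Nat.Primes => euler ρ (E27 ℤ) (V p) s p) (L s)) ∧
      AnalyticAt ℂ L 1 ∧ L 1 ≠ 0 ∧
      ∀ (Λ : PeriodPair) (Ω : ℂ), Cur Λ Ω → ((starRingEnd ℂ) Ω) ^ 6 = Ω ^ 6 →
        ∀ (Γ : Type) [LinearOrderedCommGroupWithZero Γ] (w : Valuation ℂ Γ), w 2 < 1 →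
          w (L 1) = w Ω ^ Fintype.card κ := by
  have hgal : IsGalois F K := IsGalois.tower_top_of_isGalois ℚ F K
  have hc : ∀ v₀ : HeightOneSpectrum (𝓞 F), (m : 𝓞 F) ∈ v₀.asIdeal →
      ∀ x : 𝓞 F, x ^ 3 - 2 ∉ v₀.asIdeal := fun v₀ hv x => Nc.cube hm v₀ hv x
  have hA := art_of hart
  let := commG hA
  obtain ⟨ζ, hζ⟩ := IsCyclotomicExtension.exists_isPrimitiveRoot ℚ F
    (Set.mem_singleton 3) (by norm_num)
  obtain ⟨σ, hσ⟩ := exists_emb hζ
  have hc2 : IsCoprime (m : 𝓞 F) 2 := by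
    have := cop_of (c := (m : 𝓞 F)) (k := -2) (a := 0) (by ring) (by norm_num) hc
    exact IsCoprime.neg_right_iff _ _ |>.1 this
  have hc3 : IsCoprime (m : 𝓞 F) 3 := by
    have := cop_of (c := (m : 𝓞 F)) (k := -3) (a := -1) (by ring) (by norm_num) hc
    exact IsCoprime.neg_right_iff _ _ |>.1 this
  have D := mkDat hn hA (isoE hζ σ hσ) (cube_ne hc) hc2 hc3 hc
  have hFD : FD (K := K) (G := Gal(K/F)) (inc F K) :=
    { act := fun τ x => rfl
      inj := inc_inj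
      mod1 := fun p hp v hv h1 σ hσ => frob_mod1 hp hv h1 hσ
      mod2 := fun p hp v hv h1 σ hσ => frob_mod2 hp hv h1 hσ
      quot := fun p hp v hv h3 σ hσ σ' hσ' => frob_quot hp hv h3 hσ hσ' }
  exact an_main ρ D hFD (map_natCast _ m) (m_ne hm) (m_mod hm)

end

end Pool.Agent.K4H15.BT
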